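import Mathlib
import Pool.Agent.W230.CF.TAU
import Pool.Agent.W578.CF.DIVS

/-!
# The number of representations of an integer by a binary diagonal form in a box
-/

set_option autoImplicit false

namespace Pool.Agent.Q22.NT

open NumberField Finset

/-- the number of integers of a number field which divide `m` and have bounded conjugates -/
theorem card_dvd (K : Type) [Field K] [NumberField K] (ε : ℝ) (hε : 0 < ε) : ∃ C : ℝ, 0 < C ∧
    ∀ m : ℕ, 1 ≤ m → ∀ B : ℝ, 1 ≤ B → ∀ s : Finset (𝓞 K),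
      (∀ x ∈ s, x ∣ (m : 𝓞 K) ∧ ∀ σ : K →+* ℂ, ‖σ (x : K)‖ ≤ B) →
      (s.card : ℝ) ≤ C * (m : ℝ) ^ ε * B ^ ε := by
  classical
  obtain ⟨C1, hC1, h1⟩ := Pool.Agent.W578.CF.t_DIVS K ε hε
  obtain ⟨C2, hC2, h2⟩ := Pool.Agent.W230.CF.t_TAU K 1 ε one_pos hε
  refine ⟨C1 * C2, by positivity, fun m hm B hB s hs => ?_⟩
  set t : Finset (Ideal (𝓞 K)) := s.image (fun x => Ideal.span {x}) with ht
  have hm0 : (m : 𝓞 K) ≠ 0 := by
    have : m ≠ 0 := by omega
    exact_mod_cast this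
  have hx0 : ∀ x ∈ s, x ≠ 0 := by
    intro x hx h0
    have := (hs x hx).1
    rw [h0, zero_dvd_iff] at this
    exact hm0 this
  have h3 : (t.card : ℝ) ≤ C1 * (m : ℝ) ^ ε := by
    refine h1 m hm t fun J hJ => ?_
    obtain ⟨x, hx, rfl⟩ := Finset.mem_image.1 hJ
    rw [Ideal.dvd_span_singleton, Ideal.mem_span_singleton]
    exact (hs x hx).1
  have h4 : ∀ J ∈ t, ((s.filter (fun x => Ideal.span {x} = J)).card : ℝ) ≤ C2 * B ^ ε := by
    intro J hJ
    obtain ⟨x0, hx0', rfl⟩ := Finset.mem_image.1 hJ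
    refine h2 (Ideal.span {x0}) ?_ B hB _ fun x hx => ?_
    · rw [Ne, Ideal.span_singleton_eq_bot]
      exact hx0 x0 hx0'
    · rw [Finset.mem_filter] at hx
      refine ⟨?_, hx0 x hx.1, ?_, (hs x hx.1).2⟩
      · rw [← hx.2]
        exact Ideal.mem_span_singleton_self x
      · rw [one_mul, ← hx.2, Ideal.absNorm_span_singleton]
  have h5 : (s.card : ℝ) = ∑ J ∈ t, ((s.filter (fun x => Ideal.span {x} = J)).card : ℝ) := by
    rw [← Nat.cast_sum]
    congr 1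
    exact Finset.card_eq_sum_card_fiberwise fun x hx => Finset.mem_image_of_mem _ hx
  rw [h5]
  calc ∑ J ∈ t, ((s.filter (fun x => Ideal.span {x} = J)).card : ℝ) ≤ ∑ _J ∈ t, C2 * B ^ ε :=
        Finset.sum_le_sum h4
    _ = t.card * (C2 * B ^ ε) := by rw [Finset.sum_const, nsmul_eq_mul]
    _ ≤ C1 * (m : ℝ) ^ ε * (C2 * B ^ ε) := by gcongr
    _ = _ := by ring

/-- a number field with a zero of a given polynomial -/
theorem exists_zero (f : Polynomial ℚ) (hdeg : f.degree ≠ 0) :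
    ∃ (K : Type) (_ : Field K) (_ : NumberField K) (x : K), Polynomial.aeval x f = 0 := by
  have hnf : NumberField f.SplittingField :=
    { to_charZero := charZero_of_injective_algebraMap (algebraMap ℚ f.SplittingField).injective
      to_finiteDimensional := inferInstance }
  obtain ⟨x, hx⟩ := Polynomial.Splits.exists_eval_eq_zero (Polynomial.SplittingField.splits f)
    (by rwa [Polynomial.degree_map])
  rw [Polynomial.eval_map] at hx
  exact ⟨f.SplittingField, inferInstance, hnf, x, hx⟩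

/-- a number field with a square root of a given integer -/
theorem exists_sqrt (d : ℤ) : ∃ (K : Type) (_ : Field K) (_ : NumberField K) (θ : 𝓞 K),
    θ ^ 2 = (d : 𝓞 K) := by
  obtain ⟨K, _, _, x, hx⟩ := exists_zero (Polynomial.X ^ 2 - Polynomial.C (d : ℚ)) (by
    rw [Polynomial.degree_X_pow_sub_C (by norm_num)]
    norm_num)
  have hx2 : x ^ 2 = ((d : ℤ) : K) := by
    rw [map_sub, map_pow, Polynomial.aeval_X, Polynomial.aeval_C, sub_eq_zero] at hx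
    rw [hx]
    simp
  have hint : IsIntegral ℤ x := by
    refine IsIntegral.of_pow (n := 2) (by norm_num) ?_
    rw [hx2]
    exact isIntegral_algebraMap (R := ℤ) (x := d)
  obtain ⟨θ, hθ⟩ : ∃ θ : 𝓞 K, algebraMap (𝓞 K) K θ = x := ⟨⟨x, hint⟩, rfl⟩
  refine ⟨K, inferInstance, inferInstance, θ, ?_⟩
  apply RingOfIntegers.coe_injective
  rw [map_pow, map_intCast, hθ]
  exact hx2

/-- The number of representations in a box of a nonzero integer by a binary diagonal form. -/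
theorem bin_bound (a b : ℤ) (ha : a ≠ 0) (hb : b ≠ 0) (ε : ℝ) (hε : 0 < ε) : ∃ C : ℝ, 0 < C ∧
    ∀ n : ℤ, n ≠ 0 → ∀ B : ℝ, 1 ≤ B → ∀ s : Finset (Fin 2 → ℤ),
      (∀ y ∈ s, a * y 0 ^ 2 + b * y 1 ^ 2 = n ∧ ∀ i, |(y i : ℝ)| ≤ B) →
      (s.card : ℝ) ≤ C * B ^ ε := by
  classical
  obtain ⟨K, _, _, θ, hθ⟩ := exists_sqrt (-(a * b))
  obtain ⟨C0, hC0, h0⟩ := card_dvd K (ε / 3) (by positivity)
  set A : ℝ := |(a : ℝ)| + |(b : ℝ)| with hA
  have ha1 : (1 : ℝ) ≤ |(a : ℝ)| := by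
    have : (1 : ℤ) ≤ |a| := Int.one_le_abs ha
    exact_mod_cast this
  have hb1 : (1 : ℝ) ≤ |(b : ℝ)| := by
    have : (1 : ℤ) ≤ |b| := Int.one_le_abs hb
    exact_mod_cast this
  have hA2 : 2 ≤ A := by linarith
  refine ⟨C0 * (A ^ 2) ^ (ε / 3) * (2 * A ^ 2) ^ (ε / 3), by positivity, fun n hn B hB s hs => ?_⟩
  rcases s.eq_empty_or_nonempty with rfl | ⟨y0, hy0⟩
  · rw [Finset.card_empty, Nat.cast_zero]
    positivity
  -- bound of `n`
  have hnA : |(n : ℝ)| ≤ A * B ^ 2 := by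
    obtain ⟨h1, h2⟩ := hs y0 hy0
    have h3 : (n : ℝ) = a * (y0 0 : ℝ) ^ 2 + b * (y0 1 : ℝ) ^ 2 := by
      rw [← h1]
      push_cast
      ring
    have h4 : ∀ i, (y0 i : ℝ) ^ 2 ≤ B ^ 2 := fun i => by
      rw [← sq_abs]
      exact pow_le_pow_left₀ (abs_nonneg _) (h2 i) 2
    rw [h3]
    refine (abs_add_le _ _).trans ?_
    rw [abs_mul, abs_mul, abs_of_nonneg (sq_nonneg (y0 0 : ℝ)), abs_of_nonneg (sq_nonneg (y0 1 : ℝ)),
      hA, add_mul]
    exact add_le_add (mul_le_mul_of_nonneg_left (h4 0) (abs_nonneg _))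
      (mul_le_mul_of_nonneg_left (h4 1) (abs_nonneg _))
  -- the map to the number field
  set F : (Fin 2 → ℤ) → 𝓞 K := fun y => (a : 𝓞 K) * (y 0 : 𝓞 K) + (y 1 : 𝓞 K) * θ with hF
  set F' : (Fin 2 → ℤ) → 𝓞 K := fun y => (a : 𝓞 K) * (y 0 : 𝓞 K) - (y 1 : 𝓞 K) * θ with hF'
  have hFF : ∀ y ∈ s, F y * F' y = ((a * n : ℤ) : 𝓞 K) := by
    intro y hy
    have h1 := (hs y hy).1
    have h2 : F y * F' y = (a : 𝓞 K) ^ 2 * (y 0 : 𝓞 K) ^ 2 - (y 1 : 𝓞 K) ^ 2 * θ ^ 2 := by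
      simp only [hF, hF']
      ring
    rw [h2, hθ, ← h1]
    push_cast
    ring
  have hN0 : ((a * n : ℤ) : 𝓞 K) ≠ 0 := by
    have : a * n ≠ 0 := mul_ne_zero ha hn
    exact_mod_cast this
  have hinj : Set.InjOn F (s : Set (Fin 2 → ℤ)) := by
    intro y hy y' hy' he
    have h1 := hFF y hy
    have h2 := hFF y' hy'
    rw [← he, ← h1] at h2
    have h3 : F y ≠ 0 := by
      intro h
      rw [h, zero_mul] at h1
      exact hN0 h1.symm
    have h4 : F' y' = F' y := mul_left_cancel₀ h3 h2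
    have h5 : (2 * a : 𝓞 K) * (y 0 : 𝓞 K) = (2 * a : 𝓞 K) * (y' 0 : 𝓞 K) := by
      have e1 : (2 * a : 𝓞 K) * (y 0 : 𝓞 K) = F y + F' y := by simp only [hF, hF']; ring
      have e2 : (2 * a : 𝓞 K) * (y' 0 : 𝓞 K) = F y' + F' y' := by simp only [hF, hF']; ring
      rw [e1, e2, he, h4]
    have h6 : (2 * θ : 𝓞 K) * (y 1 : 𝓞 K) = (2 * θ : 𝓞 K) * (y' 1 : 𝓞 K) := by
      have e1 : (2 * θ : 𝓞 K) * (y 1 : 𝓞 K) = F y - F' y := by simp only [hF, hF']; ring
      have e2 : (2 * θ : 𝓞 K) * (y' 1 : 𝓞 K) = F y' - F' y' := by simp only [hF, hF']; ring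
      rw [e1, e2, he, h4]
    have h20 : (2 * a : 𝓞 K) ≠ 0 := by
      have : (2 * a : ℤ) ≠ 0 := mul_ne_zero two_ne_zero ha
      exact_mod_cast this
    have hθ0 : (2 * θ : 𝓞 K) ≠ 0 := by
      refine mul_ne_zero two_ne_zero ?_
      rintro rfl
      have h7 : -(a * b) ≠ 0 := neg_ne_zero.2 (mul_ne_zero ha hb)
      rw [zero_pow two_ne_zero] at hθ
      exact h7 (by exact_mod_cast hθ.symm)
    have h7 : (y 0 : 𝓞 K) = (y' 0 : 𝓞 K) := mul_left_cancel₀ h20 h5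
    have h8 : (y 1 : 𝓞 K) = (y' 1 : 𝓞 K) := mul_left_cancel₀ hθ0 h6
    funext i
    fin_cases i
    · exact_mod_cast h7
    · exact_mod_cast h8
  rw [← Finset.card_image_of_injOn hinj]
  have hm1 : 1 ≤ (a * n).natAbs := by
    rw [Nat.one_le_iff_ne_zero, Ne, Int.natAbs_eq_zero]
    exact mul_ne_zero ha hn
  have h1 := h0 (a * n).natAbs hm1 (2 * A ^ 2 * B) (by nlinarith) (s.image F) fun x hx => by
    obtain ⟨y, hy, rfl⟩ := Finset.mem_image.1 hx
    constructor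
    · have h1 : F y ∣ ((a * n : ℤ) : 𝓞 K) := ⟨F' y, (hFF y hy).symm⟩
      rcases Int.natAbs_eq (a * n) with h | h
      · rw [h] at h1
        simpa using h1
      · rw [h] at h1
        simpa using h1
    · intro σ
      have h1 : ‖σ (θ : K)‖ ≤ A ^ 2 := by
        have h2 : σ (θ : K) ^ 2 = -((a : ℂ) * b) := by
          have h3 := congrArg (fun z : 𝓞 K => σ (z : K)) hθ
          simpa using h3
        have h3 : ‖σ (θ : K)‖ ^ 2 = |(a : ℝ)| * |(b : ℝ)| := by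
          rw [← norm_pow, h2, norm_neg, norm_mul, Complex.norm_intCast, Complex.norm_intCast]
        have h4 : 0 ≤ ‖σ (θ : K)‖ := norm_nonneg _
        have h5 : |(a : ℝ)| * |(b : ℝ)| ≤ A ^ 2 := by
          rw [hA]
          nlinarith
        by_contra hlt
        push Not at hlt
        have h6 : (1 : ℝ) ≤ A ^ 2 := by nlinarith
        nlinarith
      have h2 : σ ((F y : 𝓞 K) : K) = a * (y 0 : ℂ) + (y 1 : ℂ) * σ (θ : K) := by
        simp [hF]
      rw [h2]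
      obtain ⟨-, h3⟩ := hs y hy
      calc ‖(a : ℂ) * (y 0 : ℂ) + (y 1 : ℂ) * σ (θ : K)‖
          ≤ ‖(a : ℂ) * (y 0 : ℂ)‖ + ‖(y 1 : ℂ) * σ (θ : K)‖ := norm_add_le _ _
        _ = |(a : ℝ)| * |(y 0 : ℝ)| + |(y 1 : ℝ)| * ‖σ (θ : K)‖ := by
            rw [norm_mul, norm_mul, Complex.norm_intCast, Complex.norm_intCast, Complex.norm_intCast]
        _ ≤ |(a : ℝ)| * B + B * A ^ 2 := by
            gcongr
            · exact h3 0
            · exact h3 1
        _ ≤ 2 * A ^ 2 * B := by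
            have : |(a : ℝ)| ≤ A ^ 2 := by nlinarith [abs_nonneg (b : ℝ)]
            nlinarith
  refine h1.trans ?_
  have hm2 : ((a * n).natAbs : ℝ) ≤ A ^ 2 * B ^ 2 := by
    rw [Nat.cast_natAbs]
    push_cast
    rw [abs_mul]
    have h2 : |(a : ℝ)| ≤ A := by
      rw [hA]
      linarith
    calc |(a : ℝ)| * |(n : ℝ)| ≤ A * (A * B ^ 2) := by gcongr
      _ = _ := by ring
  have hB0 : 0 ≤ B := by linarith
  have h2 : ((a * n).natAbs : ℝ) ^ (ε / 3) ≤ (A ^ 2) ^ (ε / 3) * (B ^ (ε / 3)) ^ 2 := by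
    refine (Real.rpow_le_rpow (Nat.cast_nonneg _) hm2 (by positivity)).trans (le_of_eq ?_)
    rw [Real.mul_rpow (by positivity) (by positivity), ← Real.rpow_natCast B 2,
      ← Real.rpow_mul hB0, mul_comm ((2 : ℕ) : ℝ), Real.rpow_mul hB0, Real.rpow_natCast]
  have h3 : (2 * A ^ 2 * B) ^ (ε / 3) = (2 * A ^ 2) ^ (ε / 3) * B ^ (ε / 3) :=
    Real.mul_rpow (by positivity) hB0
  have h4 : B ^ ε = (B ^ (ε / 3)) ^ 3 := by
    rw [← Real.rpow_natCast, ← Real.rpow_mul hB0]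
    congr 1
    push_cast
    ring
  have hc1 : (0 : ℝ) ≤ (2 * A ^ 2) ^ (ε / 3) := by positivity
  have hc2 : (0 : ℝ) ≤ B ^ (ε / 3) := by positivity
  rw [h3, h4]
  calc C0 * ((a * n).natAbs : ℝ) ^ (ε / 3) * ((2 * A ^ 2) ^ (ε / 3) * B ^ (ε / 3))
      ≤ C0 * ((A ^ 2) ^ (ε / 3) * (B ^ (ε / 3)) ^ 2) * ((2 * A ^ 2) ^ (ε / 3) * B ^ (ε / 3)) := by
        gcongr
    _ = _ := by ring

end Pool.Agent.Q22.NT
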