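import Mathlib

/-!
# The number of integral vectors with nonzero coordinates of bounded product
-/

set_option autoImplicit false

namespace Pool.Agent.Q22.NT

open Finset

theorem card_prod_le (ι : Type) [Fintype ι] [DecidableEq ι] (η : ℝ) (hη : 0 < η) :
    ∃ C : ℝ, 0 < C ∧ ∀ X : ℝ, 1 ≤ X → ∀ s : Finset (ι → ℤ),
      (∀ w ∈ s, (∀ i, w i ≠ 0) ∧ ∏ i, |(w i : ℝ)| ≤ X) →
      (s.card : ℝ) ≤ C * X ^ (1 + η) := by
  classical
  set f : ℤ → ℝ := fun n => |(n : ℝ)| ^ (-(1 + η)) with hf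
  have hsum : Summable f := Real.summable_abs_int_rpow (by linarith)
  have hf0 : ∀ n, 0 ≤ f n := fun n => Real.rpow_nonneg (abs_nonneg _) _
  set Z : ℝ := ∑' n, f n + 1 with hZ
  have hZ0 : 0 < Z := by
    have : 0 ≤ ∑' n, f n := tsum_nonneg hf0
    linarith
  refine ⟨Z ^ Fintype.card ι, by positivity, fun X hX s hs => ?_⟩
  set box : Finset ℤ := Finset.Icc (-⌊X⌋) ⌊X⌋ with hbox
  have h1 : ∀ w ∈ s, ∀ i, (1 : ℝ) ≤ |(w i : ℝ)| := by
    intro w hw i
    have : (1 : ℤ) ≤ |w i| := Int.one_le_abs ((hs w hw).1 i)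
    exact_mod_cast this
  have h2 : s ⊆ Fintype.piFinset (fun _ : ι => box) := by
    intro w hw
    rw [Fintype.mem_piFinset]
    intro i
    have h3 : |(w i : ℝ)| ≤ X := by
      refine le_trans ?_ (hs w hw).2
      have h4 := Finset.prod_le_prod (s := (univ : Finset ι)) (f := fun j => if j = i then |(w i : ℝ)| else 1)
        (g := fun j => |(w j : ℝ)|) (fun j _ => by positivity) (fun j _ => by
          by_cases hj : j = i
          · rw [if_pos hj, hj]
          · rw [if_neg hj]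
            exact h1 w hw j)
      rwa [Finset.prod_ite_eq' univ i, if_pos (Finset.mem_univ i)] at h4
    have h5 : ((|w i| : ℤ) : ℝ) ≤ X := by
      rw [Int.cast_abs]
      exact h3
    have h6 : |w i| ≤ ⌊X⌋ := Int.le_floor.2 h5
    rw [hbox, Finset.mem_Icc]
    exact abs_le.1 h6
  have h3 : ∀ w ∈ s, (1 : ℝ) ≤ X ^ (1 + η) * ∏ i, f (w i) := by
    intro w hw
    have h4 : ∏ i, f (w i) = (∏ i, |(w i : ℝ)|) ^ (-(1 + η)) :=
      Real.finsetProd_rpow univ (fun i => |(w i : ℝ)|) (fun i _ => abs_nonneg _) _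
    have h5 : 1 ≤ ∏ i, |(w i : ℝ)| := by
      have := Finset.prod_le_prod (s := (univ : Finset ι)) (f := fun _ => (1 : ℝ))
        (g := fun j => |(w j : ℝ)|) (fun j _ => zero_le_one) (fun j _ => h1 w hw j)
      simpa using this
    have h6 : (0 : ℝ) < (∏ i, |(w i : ℝ)|) ^ (1 + η) := Real.rpow_pos_of_pos (by linarith) _
    rw [h4, Real.rpow_neg (by linarith), ← div_eq_mul_inv, le_div_iff₀ h6, one_mul]
    exact Real.rpow_le_rpow (by linarith) (hs w hw).2 (by linarith)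
  have hX0 : (0 : ℝ) ≤ X ^ (1 + η) := Real.rpow_nonneg (by linarith) _
  calc (s.card : ℝ) = ∑ w ∈ s, (1 : ℝ) := by rw [Finset.sum_const, nsmul_eq_mul, mul_one]
    _ ≤ ∑ w ∈ s, X ^ (1 + η) * ∏ i, f (w i) := Finset.sum_le_sum h3
    _ ≤ ∑ w ∈ Fintype.piFinset (fun _ : ι => box), X ^ (1 + η) * ∏ i, f (w i) :=
        Finset.sum_le_sum_of_subset_of_nonneg h2 fun w _ _ =>
          mul_nonneg hX0 (Finset.prod_nonneg fun i _ => hf0 _)
    _ = X ^ (1 + η) * ∏ _i : ι, ∑ n ∈ box, f n := by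
        rw [← Finset.mul_sum, Finset.prod_univ_sum]
    _ ≤ X ^ (1 + η) * ∏ _i : ι, Z := by
        refine mul_le_mul_of_nonneg_left ?_ hX0
        refine Finset.prod_le_prod (fun i _ => Finset.sum_nonneg fun n _ => hf0 n) fun i _ => ?_
        have := hsum.sum_le_tsum box (fun n _ => hf0 n)
        linarith
    _ = Z ^ Fintype.card ι * X ^ (1 + η) := by
        rw [Finset.prod_const, Finset.card_univ, mul_comm]

end Pool.Agent.Q22.NT
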