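import Mathlib

/-!
# Norm equations in toric varieties: definitions

* `V` is a split toric variety over the rational numbers with Picard group `ℤ^r`. Its homogeneous (Cox)
  coordinates are the `N` coordinates `w i` and, for each `i < s`, the `[K i : ℚ]` coordinates of an
  element `y i` of the number field `K i` (with respect to a basis of its ring of integers); for one
  `i` the latter have all the same class.
* `cl (Sum.inl i)` is the class of `w i`, `cl (Sum.inr i)` is the class of the coordinates of `y i`,
  and `A` is an ample class. `V` is the quotient of the open set of all vectors such that `A` lies in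
  the cone of the classes of the nonzero coordinates, by the torus with the character group `ℤ^r`.
* `X ⊆ V` is given by `q` equations: the product of the norms of the `y i` with `e i = j` is equal to
  the value `G j (w)` of a polynomial.
-/

set_option autoImplicit false

namespace Pool.Agent.Q22.NT

open NumberField

variable {r N s q : ℕ}

/-- `A` lies in the cone which is generated by the classes of the coordinates in `S` -/
def InCone (cl : Fin N ⊕ Fin s → Fin r → ℤ) (A : Fin r → ℤ) (S : Set (Fin N ⊕ Fin s)) : Prop :=
  ∃ x : Fin N ⊕ Fin s → ℝ, (∀ i, 0 ≤ x i) ∧ (∀ i, i ∉ S → x i = 0) ∧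
    ∀ m, ∑ i, x i * (cl i m : ℝ) = (A m : ℝ)

/-- `V` is a smooth projective toric variety: the grading is positive (projective), and whenever `A`
lies in the cone of a set of classes, these classes generate the group `ℤ^r` (the torus acts
freely). -/
structure SmoothToric (cl : Fin N ⊕ Fin s → Fin r → ℤ) (A : Fin r → ℤ) : Prop where
  pos : ∀ x : Fin N ⊕ Fin s → ℝ, (∀ i, 0 ≤ x i) → (∀ m, ∑ i, x i * (cl i m : ℝ) = 0) → ∀ i, x i = 0
  free : ∀ S : Set (Fin N ⊕ Fin s), InCone cl A S → AddSubgroup.closure (cl '' S) = ⊤

/-- the class of a coordinate as a real vector -/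
def vec (cl : Fin N ⊕ Fin s → Fin r → ℤ) (i : Fin N ⊕ Fin s) : Fin r → ℝ := fun m => (cl i m : ℝ)

/-- the canonical class of `X`: by adjunction it is `-∑ (all coordinates) + ∑ (equations)`, and the
class of the equation number `j` is the sum of the classes of all coordinates of the `y i` with
`e i = j`. -/
def can (cl : Fin N ⊕ Fin s → Fin r → ℤ) : Fin r → ℝ := -∑ i : Fin N, vec cl (Sum.inl i)

/-- the cone of the effective classes -/
def Eff (cl : Fin N ⊕ Fin s → Fin r → ℤ) : Set (Fin r → ℝ) :=
  {v | ∃ m : Fin N ⊕ Fin s → ℝ, (∀ i, 0 ≤ m i) ∧ ∑ i, m i • vec cl i = v}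

/-- the Fujita invariant `a(X, L)` -/
noncomputable def fuj (cl : Fin N ⊕ Fin s → Fin r → ℤ) (L : Fin r → ℝ) : ℝ :=
  sInf {a : ℝ | a • L + can cl ∈ Eff cl}

variable (K : Fin s → Type) [∀ i, Field (K i)] [∀ i, NumberField (K i)]

/-- integral values of the coordinates -/
abbrev Pt (N : ℕ) : Type := (Fin N → ℤ) × (∀ i : Fin s, 𝓞 (K i))

/-- the coordinates which are not divisible by the number `p` -/
def nz (p : ℕ) (P : Pt K N) : Set (Fin N ⊕ Fin s) := fun x =>
  match x with
  | Sum.inl i => ¬ (p : ℤ) ∣ P.1 i
  | Sum.inr i => ¬ (p : 𝓞 (K i)) ∣ P.2 i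

/-- Coordinates of a rational point of `V`: for every prime number `p` the reduction of the vector
modulo `p` gives a point of `V`. Every rational point of `V` has exactly `2 ^ r` such vectors of
coordinates. -/
def Coprime (cl : Fin N ⊕ Fin s → Fin r → ℤ) (A : Fin r → ℤ) (P : Pt K N) : Prop :=
  ∀ p : ℕ, p.Prime → InCone cl A (nz K p P)

/-- the equations of `X` -/
def Eqn (e : Fin s → Fin q) (G : Fin q → MvPolynomial (Fin N) ℤ) (P : Pt K N) : Prop :=
  ∀ j, ∏ i ∈ Finset.univ.filter (fun i => e i = j), Algebra.norm ℤ (P.2 i) =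
    MvPolynomial.eval P.1 (G j)

/-- the open set `U`: no coordinate `w i` is zero, and no `G j (w)` is zero -/
def InU (G : Fin q → MvPolynomial (Fin N) ℤ) (P : Pt K N) : Prop :=
  (∀ i, P.1 i ≠ 0) ∧ ∀ j, MvPolynomial.eval P.1 (G j) ≠ 0

/-- the sizes of the coordinates: the absolute value of `w i`, and the maximum of the absolute values
of the conjugates of `y i` -/
noncomputable def sz (P : Pt K N) : Fin N ⊕ Fin s → ℝ
  | Sum.inl i => |(P.1 i : ℝ)|
  | Sum.inr i => house (P.2 i : K i)

/-- The height with respect to the class `L` is at most `T`: all monomials (with real exponents) in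
the sizes of the coordinates which have the class `L` are at most `T`. -/
def HtLe (cl : Fin N ⊕ Fin s → Fin r → ℤ) (L : Fin r → ℝ) (T : ℝ) (P : Pt K N) : Prop :=
  ∀ m : Fin N ⊕ Fin s → ℝ, (∀ i, 0 ≤ m i) → ∑ i, m i • vec cl i = L → ∏ i, sz K P i ^ m i ≤ T

/-- the coordinates of the rational points of `U` of height at most `T` -/
def Pts (cl : Fin N ⊕ Fin s → Fin r → ℤ) (A : Fin r → ℤ) (e : Fin s → Fin q)
    (G : Fin q → MvPolynomial (Fin N) ℤ) (L : Fin r → ℝ) (T : ℝ) : Set (Pt K N) :=
  {P | Coprime K cl A P ∧ Eqn K e G P ∧ InU K G P ∧ HtLe K cl L T P}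

/-- A lower bound for the codimension, in the affine cone `X̂` of `X` (the solutions of the equations in
the space of all coordinates), of the subset where the coordinates in `S` vanish: the number of the
`w i` in `S`; for each equation with a coordinate `y i` in `S` on its left side the number of the
coordinates of these `y i` minus one; and one more if one of these equations has a right side which is
not zero for all `w` with `w i = 0` for the `w i` in `S`. (The map from `X̂` to the space of the `w` is
flat, with fibres of dimension `∑ (degree of the left side - 1)`.) -/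
noncomputable def codim (e : Fin s → Fin q) (G : Fin q → MvPolynomial (Fin N) ℤ)
    (S : Set (Fin N ⊕ Fin s)) : ℕ :=
  open Classical in
  (Finset.univ.filter fun i : Fin N => Sum.inl i ∈ S).card +
    ∑ j ∈ (Finset.univ.filter fun i : Fin s => Sum.inr i ∈ S).image e,
      ((∑ i ∈ Finset.univ.filter (fun i : Fin s => Sum.inr i ∈ S ∧ e i = j),
        Module.finrank ℚ (K i)) - 1) +
    if ∃ i : Fin s, Sum.inr i ∈ S ∧ ∃ μ ∈ (G (e i)).support, ∀ l : Fin N, Sum.inl l ∈ S → μ l = 0
      then 1 else 0

/-- The equations are homogeneous: `G j` has the class of the sum of the classes of all coordinates of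
the `y i` with `e i = j`, and is not zero; and the points of the affine cone of `X` outside of `V` have
codimension at least two. -/
structure Homog (cl : Fin N ⊕ Fin s → Fin r → ℤ) (A : Fin r → ℤ) (e : Fin s → Fin q)
    (G : Fin q → MvPolynomial (Fin N) ℤ) : Prop where
  hom : ∀ j, (G j).IsWeightedHomogeneous (fun i => cl (Sum.inl i))
    (∑ i ∈ Finset.univ.filter (fun i => e i = j), Module.finrank ℚ (K i) • cl (Sum.inr i))
  ne : ∀ j, G j ≠ 0
  cod : ∀ S : Set (Fin N ⊕ Fin s), ¬ InCone cl A Sᶜ → 2 ≤ codim K e G S

end Pool.Agent.Q22.NT
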