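import Mathlib
import Pool.Agent.Q22.NT.Defs
import Pool.Agent.Q22.NT.Bin
import Pool.Agent.Q22.NT.Cnt

/-!
# Norm equations in toric varieties: the upper bound
-/

set_option autoImplicit false

namespace Pool.Agent.Q22.NT

open Finset NumberField

variable {r N s q : ℕ}

section cone

variable (cl : Fin N ⊕ Fin s → Fin r → ℤ)

/-- the grading is positive -/
lemma pointed (hpos : ∀ x : Fin N ⊕ Fin s → ℝ, (∀ i, 0 ≤ x i) →
      (∀ m, ∑ i, x i * (cl i m : ℝ) = 0) → ∀ i, x i = 0)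
    (m : Fin N ⊕ Fin s → ℝ) (hm : ∀ i, 0 ≤ m i) (h : ∑ i, m i • vec cl i = 0) : ∀ i, m i = 0 := by
  refine hpos m hm fun l => ?_
  have h1 := congrFun h l
  rw [Finset.sum_apply] at h1
  exact h1

lemma eff_smul {v : Fin r → ℝ} (hv : v ∈ Eff cl) {x : ℝ} (hx : 0 ≤ x) : x • v ∈ Eff cl := by
  obtain ⟨m, hm, rfl⟩ := hv
  refine ⟨fun i => x * m i, fun i => mul_nonneg hx (hm i), ?_⟩
  rw [Finset.smul_sum]
  exact Finset.sum_congr rfl fun i _ => by rw [mul_smul]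

lemma exists_sub {L : Fin r → ℝ} (hL : L ∈ interior (Eff cl)) (v : Fin r → ℝ) :
    ∃ x : ℝ, 0 < x ∧ L + x • v ∈ Eff cl := by
  have hc : Continuous (fun x : ℝ => L + x • v) := by fun_prop
  have h0 : (fun x : ℝ => L + x • v) 0 ∈ interior (Eff cl) := by simpa using hL
  have h1 : (fun x : ℝ => L + x • v) ⁻¹' interior (Eff cl) ∈ nhds (0 : ℝ) :=
    hc.continuousAt.preimage_mem_nhds (isOpen_interior.mem_nhds h0)
  obtain ⟨δ, hδ, h2⟩ := Metric.mem_nhds_iff.1 h1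
  refine ⟨δ / 2, by positivity, ?_⟩
  have h3 : δ / 2 ∈ Metric.ball (0 : ℝ) δ := by
    rw [Metric.mem_ball, dist_zero_right, Real.norm_eq_abs, abs_of_pos (by positivity)]
    linarith
  exact interior_subset (h2 h3)

/-- the indicator function of the coordinates `w` -/
def ind : Fin N ⊕ Fin s → ℝ
  | Sum.inl _ => 1
  | Sum.inr _ => 0

/-- the indicator function of the coordinates `y` -/
def indy : Fin N ⊕ Fin s → ℝ
  | Sum.inl _ => 0
  | Sum.inr _ => 1

lemma ind_nonneg (i : Fin N ⊕ Fin s) : 0 ≤ ind i := by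
  rcases i with i | i <;> simp [ind]

lemma indy_nonneg (i : Fin N ⊕ Fin s) : 0 ≤ indy i := by
  rcases i with i | i <;> simp [indy]

lemma sum_ind : ∑ i, ind i • vec cl i = - can cl := by
  rw [Fintype.sum_sum_type]
  simp [ind, can]

lemma fuj_pos (hpos : ∀ x : Fin N ⊕ Fin s → ℝ, (∀ i, 0 ≤ x i) →
      (∀ m, ∑ i, x i * (cl i m : ℝ) = 0) → ∀ i, x i = 0) (x0 : Fin N) {L : Fin r → ℝ}
    (hL : L ∈ Eff cl) {t : ℝ} (ht : t • L + can cl ∈ Eff cl) : 0 < t := by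
  by_contra hneg
  push Not at hneg
  obtain ⟨m, hm, h1⟩ := ht
  obtain ⟨l, hl, h2⟩ := hL
  have h3 : ∑ i, (m i + ind i + (-t) * l i) • vec cl i = 0 := by
    simp only [add_smul, Finset.sum_add_distrib, mul_smul, ← Finset.smul_sum]
    rw [h1, h2, sum_ind]
    module
  have h4 := pointed cl hpos _ (fun i => add_nonneg (add_nonneg (hm i) (ind_nonneg i))
    (mul_nonneg (by linarith) (hl i))) h3 (Sum.inl x0)
  have h5 := hm (Sum.inl x0)
  have h6 : 0 ≤ (-t) * l (Sum.inl x0) := mul_nonneg (by linarith) (hl _)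
  have h7 : (ind (s := s) (Sum.inl x0) : ℝ) = 1 := rfl
  linarith

lemma fuj_set (hpos : ∀ x : Fin N ⊕ Fin s → ℝ, (∀ i, 0 ≤ x i) →
      (∀ m, ∑ i, x i * (cl i m : ℝ) = 0) → ∀ i, x i = 0) (x0 : Fin N) {L : Fin r → ℝ}
    (hL : L ∈ interior (Eff cl)) {ε : ℝ} (hε : 0 < ε) :
    ∃ t : ℝ, 0 < t ∧ t < fuj cl L + ε ∧ ∃ m : Fin N ⊕ Fin s → ℝ, (∀ i, ind i ≤ m i) ∧
      ∑ i, (m i / t) • vec cl i = L := by
  have hne : {a : ℝ | a • L + can cl ∈ Eff cl}.Nonempty := by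
    obtain ⟨x, hx, h1⟩ := exists_sub cl hL (can cl)
    refine ⟨x⁻¹, ?_⟩
    have h2 := eff_smul cl h1 (inv_pos.2 hx).le
    rwa [smul_add, smul_smul, inv_mul_cancel₀ hx.ne', one_smul] at h2
  obtain ⟨t, ht, ht2⟩ := exists_lt_of_csInf_lt hne (show sInf _ < fuj cl L + ε by
    rw [fuj]
    linarith)
  have ht0 : 0 < t := fuj_pos cl hpos x0 (interior_subset hL) ht
  obtain ⟨m, hm, h1⟩ := ht
  refine ⟨t, ht0, ht2, fun i => m i + ind i, fun i => by linarith [hm i], ?_⟩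
  have h2 : ∑ i, (m i + ind i) • vec cl i = t • L := by
    simp only [add_smul, Finset.sum_add_distrib]
    rw [h1, sum_ind]
    module
  have h3 : ∀ i, ((m i + ind i) / t) • vec cl i = t⁻¹ • ((m i + ind i) • vec cl i) := by
    intro i
    rw [smul_smul, div_eq_inv_mul]
  simp only [h3]
  rw [← Finset.smul_sum, h2, smul_smul, inv_mul_cancel₀ ht0.ne', one_smul]

end cone

section points

variable {K : Fin s → Type} [∀ i, Field (K i)] [∀ i, NumberField (K i)]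

lemma sz_ge (e : Fin s → Fin q) (G : Fin q → MvPolynomial (Fin N) ℤ)
    {P : Pt K N} (h1 : Eqn K e G P) (h2 : InU K G P) (i : Fin N ⊕ Fin s) : 1 ≤ sz K P i := by
  rcases i with i | i
  · have : (1 : ℤ) ≤ |P.1 i| := Int.one_le_abs (h2.1 i)
    simp only [sz]
    exact_mod_cast this
  · have h3 := h1 (e i)
    have h4 : Algebra.norm ℤ (P.2 i) ≠ 0 := by
      intro h0
      refine h2.2 (e i) ?_
      rw [← h3]
      exact Finset.prod_eq_zero (Finset.mem_filter.2 ⟨Finset.mem_univ i, rfl⟩) h0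
    have h5 : (P.2 i : K i) ≠ 0 := by
      intro h0
      have h6 : P.2 i = 0 := RingOfIntegers.coe_injective (by rw [map_zero]; exact h0)
      rw [h6] at h4
      exact h4 (Algebra.norm_zero)
    exact one_le_house_of_isIntegral (P.2 i).isIntegral_coe h5

variable (cl : Fin N ⊕ Fin s → Fin r → ℤ)

/-- the bound of the coordinates `w` -/
lemma bound_w {P : Pt K N} (hsz : ∀ i, 1 ≤ sz K P i) {L : Fin r → ℝ} {T t : ℝ}
    (hT : HtLe K cl L T P) (ht : 0 < t) (m : Fin N ⊕ Fin s → ℝ) (hm : ∀ i, ind i ≤ m i)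
    (h : ∑ i, (m i / t) • vec cl i = L) : (∏ i, |(P.1 i : ℝ)|) ≤ T ^ t := by
  have hm0 : ∀ i, 0 ≤ m i := fun i => (ind_nonneg i).trans (hm i)
  have h1 := hT (fun i => m i / t) (fun i => div_nonneg (hm0 i) ht.le) h
  have hs0 : ∀ i, 0 ≤ sz K P i := fun i => zero_le_one.trans (hsz i)
  have h2 : (∏ i, sz K P i ^ (m i / t)) ^ t = ∏ i, sz K P i ^ m i := by
    rw [← Real.finsetProd_rpow univ _ (fun i _ => Real.rpow_nonneg (hs0 i) _)]
    refine Finset.prod_congr rfl fun i _ => ?_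
    rw [← Real.rpow_mul (hs0 i), div_mul_cancel₀ _ ht.ne']
  have h3 : ∏ i, sz K P i ^ m i ≤ T ^ t := by
    rw [← h2]
    exact Real.rpow_le_rpow (Finset.prod_nonneg fun i _ => Real.rpow_nonneg (hs0 i) _) h1 ht.le
  refine le_trans (le_of_eq_of_le ?_ (Finset.prod_le_prod (s := (univ : Finset (Fin N ⊕ Fin s)))
    (f := fun i => sz K P i ^ ind i) (fun i _ => Real.rpow_nonneg (hs0 i) _)
    (fun i _ => Real.rpow_le_rpow_of_exponent_le (hsz i) (hm i)))) h3
  rw [Fintype.prod_sum_type]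
  simp [ind, sz]

/-- the bound of the coordinates `y` -/
lemma bound_y {P : Pt K N} (hsz : ∀ i, 1 ≤ sz K P i) {L : Fin r → ℝ} {T δ : ℝ}
    (hT : HtLe K cl L T P) (hδ : 0 < δ) (m : Fin N ⊕ Fin s → ℝ) (hm : ∀ i, 0 ≤ m i)
    (h : ∑ i, (m i + δ * indy i) • vec cl i = L) (j : Fin s) :
    house (P.2 j : K j) ≤ T ^ (1 / δ) := by
  have h1 := hT (fun i => m i + δ * indy i)
    (fun i => add_nonneg (hm i) (mul_nonneg hδ.le (indy_nonneg i))) h
  have hs0 : ∀ i, 0 ≤ sz K P i := fun i => zero_le_one.trans (hsz i)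
  set i0 : Fin N ⊕ Fin s := Sum.inr j with hi0
  have h2 : sz K P i0 ^ δ ≤ T := by
    refine le_trans ?_ h1
    have h3 := Finset.prod_le_prod (s := (univ : Finset (Fin N ⊕ Fin s)))
      (f := fun i => if i = i0 then sz K P i0 ^ δ else 1)
      (g := fun i => sz K P i ^ (m i + δ * indy i))
      (fun i _ => by
        split_ifs
        · exact Real.rpow_nonneg (hs0 _) _
        · exact zero_le_one)
      (fun i _ => by
        split_ifs with hi
        · rw [hi]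
          refine Real.rpow_le_rpow_of_exponent_le (hsz i0) ?_
          have h4 : indy i0 = (1 : ℝ) := rfl
          rw [h4]
          linarith [hm i0]
        · exact Real.one_le_rpow (hsz i) (add_nonneg (hm i) (mul_nonneg hδ.le (indy_nonneg i))))
    rwa [Finset.prod_ite_eq' univ i0, if_pos (Finset.mem_univ i0)] at h3
  have h3 : (sz K P i0 ^ δ) ^ (1 / δ) ≤ T ^ (1 / δ) :=
    Real.rpow_le_rpow (Real.rpow_nonneg (hs0 _) _) h2 (by positivity)
  rw [← Real.rpow_mul (hs0 _), mul_one_div_cancel hδ.ne', Real.rpow_one] at h3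
  exact h3

/-- the norm is bounded by a power of the house -/
lemma norm_le {F : Type} [Field F] [NumberField F] (x : 𝓞 F) {B : ℝ} (hx : house (x : F) ≤ B) :
    ((Algebra.norm ℤ x).natAbs : ℝ) ≤ B ^ Module.finrank ℚ F := by
  rw [Pool.Agent.W230.CF.nrm_prod, ← NumberField.Embeddings.card F ℂ, ← Finset.card_univ,
    ← Finset.prod_const]
  exact Finset.prod_le_prod (fun σ _ => norm_nonneg _)
    fun σ _ => (norm_embedding_le_house _ σ).trans hx

/-- the number of points with given coordinates `w` -/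
lemma card_fibre (e : Fin s → Fin q) (G : Fin q → MvPolynomial (Fin N) ℤ)
    {η B : ℝ} (hη : 0 < η) (hB : 1 ≤ B) (C2 : Fin s → ℝ) (hC2 : ∀ i, 0 < C2 i)
    (h2 : ∀ i, ∀ m : ℕ, 1 ≤ m → ∀ B : ℝ, 1 ≤ B → ∀ s : Finset (𝓞 (K i)),
      (∀ x ∈ s, x ∣ (m : 𝓞 (K i)) ∧ ∀ σ : K i →+* ℂ, ‖σ (x : K i)‖ ≤ B) →
      (s.card : ℝ) ≤ C2 i * (m : ℝ) ^ η * B ^ η)
    (f : Finset (Pt K N)) (P0 : Pt K N)
    (hf : ∀ P ∈ f, P.1 = P0.1 ∧ Eqn K e G P ∧ InU K G P ∧ ∀ i, house (P.2 i : K i) ≤ B)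
    (hP0 : P0 ∈ f) :
    (f.card : ℝ) ≤ ∏ i, (C2 i * (B ^ ∑ i, Module.finrank ℚ (K i)) ^ η * B ^ η) := by
  classical
  have h1 : f.card ≤ (Fintype.piFinset fun i => f.image (fun P => P.2 i)).card := by
    refine Finset.card_le_card_of_injOn (fun P => P.2) (fun P hP => ?_) fun P hP P' hP' he => ?_
    · rw [Finset.mem_coe, Fintype.mem_piFinset]
      intro i
      exact Finset.mem_image_of_mem _ hP
    · exact Prod.ext ((hf P hP).1.trans (hf P' hP').1.symm) he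
  rw [Fintype.card_piFinset] at h1
  have h3 : (f.card : ℝ) ≤ ∏ i, ((f.image (fun P => P.2 i)).card : ℝ) := by
    exact_mod_cast h1
  refine h3.trans (Finset.prod_le_prod (fun j _ => Nat.cast_nonneg _) fun i _ => ?_)
  set n : ℤ := MvPolynomial.eval P0.1 (G (e i)) with hn
  have hn0 : n ≠ 0 := (hf P0 hP0).2.2.1.2 (e i)
  have hn1 : 1 ≤ n.natAbs := by
    rw [Nat.one_le_iff_ne_zero, Ne, Int.natAbs_eq_zero]
    exact hn0
  have hnB : (n.natAbs : ℝ) ≤ B ^ ∑ i, Module.finrank ℚ (K i) := by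
    obtain ⟨-, p1, -, p2⟩ := hf P0 hP0
    have e1 : n.natAbs = ∏ i' ∈ univ.filter (fun i' => e i' = e i),
        (Algebra.norm ℤ (P0.2 i')).natAbs := by
      rw [hn, ← p1 (e i)]
      exact map_prod Int.natAbsHom _ _
    rw [e1, Nat.cast_prod]
    calc ∏ i' ∈ univ.filter (fun i' => e i' = e i), (((Algebra.norm ℤ (P0.2 i')).natAbs : ℕ) : ℝ)
        ≤ ∏ i' ∈ univ.filter (fun i' => e i' = e i), B ^ Module.finrank ℚ (K i') :=
          Finset.prod_le_prod (fun _ _ => Nat.cast_nonneg _) fun i' _ => norm_le _ (p2 i')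
      _ = B ^ ∑ i' ∈ univ.filter (fun i' => e i' = e i), Module.finrank ℚ (K i') :=
          Finset.prod_pow_eq_pow_sum _ _ _
      _ ≤ B ^ ∑ i, Module.finrank ℚ (K i) :=
          pow_le_pow_right₀ hB (Finset.sum_le_sum_of_subset (Finset.filter_subset _ _))
  refine (h2 i n.natAbs hn1 B hB _ ?_).trans ?_
  · intro x hx
    obtain ⟨P, hP, rfl⟩ := Finset.mem_image.1 hx
    obtain ⟨p0, p1, p2, p3⟩ := hf P hP
    constructor
    · have e1 : P.2 i ∣ (((Algebra.norm ℤ (P.2 i)).natAbs : ℕ) : 𝓞 (K i)) := by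
        rw [← Ideal.mem_span_singleton, ← Ideal.absNorm_span_singleton]
        exact Ideal.absNorm_mem _
      refine e1.trans ?_
      have e2 : (Algebra.norm ℤ (P.2 i)).natAbs ∣ n.natAbs := by
        rw [Int.natAbs_dvd_natAbs, hn, ← p0, ← p1 (e i)]
        exact Finset.dvd_prod_of_mem _ (Finset.mem_filter.2 ⟨Finset.mem_univ i, rfl⟩)
      exact_mod_cast Nat.cast_dvd_cast e2
    · intro σ
      exact (norm_embedding_le_house _ σ).trans (p3 i)
  · have := hC2 i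
    gcongr

theorem upper (hpos : ∀ x : Fin N ⊕ Fin s → ℝ, (∀ i, 0 ≤ x i) →
      (∀ m, ∑ i, x i * (cl i m : ℝ) = 0) → ∀ i, x i = 0) (x0 : Fin N)
    (e : Fin s → Fin q) (G : Fin q → MvPolynomial (Fin N) ℤ)
    (L : Fin r → ℝ) (hL : L ∈ interior (Eff cl)) (ε : ℝ) (hε : 0 < ε) :
    ∃ C : ℝ, 0 < C ∧ ∀ T : ℝ, 1 ≤ T → ∀ f : Finset (Pt K N),
      (∀ P ∈ f, Eqn K e G P ∧ InU K G P ∧ HtLe K cl L T P) →
      (f.card : ℝ) ≤ C * T ^ (fuj cl L + ε) := by
  classical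
  obtain ⟨t, ht0, ht1, m, hm, hmL⟩ := fuj_set cl hpos x0 hL (half_pos hε)
  obtain ⟨δ, hδ, m', hm', e'⟩ := exists_sub cl hL (-(∑ i, indy i • vec cl i))
  have hm'L : ∑ i, (m' i + δ * indy i) • vec cl i = L := by
    simp only [add_smul, Finset.sum_add_distrib, mul_smul, ← Finset.smul_sum]
    rw [e']
    module
  set d : ℕ := ∑ i, Module.finrank ℚ (K i) with hd
  have hden : 0 < t + s * (d + 1) / δ + 1 := by positivity
  set η : ℝ := (ε / 2) / (t + s * (d + 1) / δ + 1) with hη'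
  have hη : 0 < η := by positivity
  obtain ⟨C1, hC1, h1⟩ := card_prod_le (Fin N) η hη
  choose C2 hC2 h2 using fun i => card_dvd (K i) η hη
  refine ⟨C1 * ∏ j, C2 j, mul_pos hC1 (Finset.prod_pos fun j _ => hC2 j), fun T hT f hf => ?_⟩
  have hT0 : 0 < T := by linarith
  have hX : 1 ≤ T ^ t := Real.one_le_rpow hT ht0.le
  have hB : 1 ≤ T ^ (1 / δ) := Real.one_le_rpow hT (by positivity)
  have h3 : ((f.image Prod.fst).card : ℝ) ≤ C1 * (T ^ t) ^ (1 + η) := by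
    refine h1 _ hX _ fun w hw => ?_
    obtain ⟨P, hP, rfl⟩ := Finset.mem_image.1 hw
    obtain ⟨p1, p2, p3⟩ := hf P hP
    exact ⟨p2.1, bound_w cl (sz_ge e G p1 p2) p3 ht0 m hm hmL⟩
  have h4 : ∀ w ∈ f.image Prod.fst, ((f.filter (fun P => P.1 = w)).card : ℝ) ≤
      ∏ i, (C2 i * ((T ^ (1 / δ)) ^ d) ^ η * (T ^ (1 / δ)) ^ η) := by
    intro w hw
    obtain ⟨P0, hP0, rfl⟩ := Finset.mem_image.1 hw
    refine card_fibre e G hη hB C2 hC2 h2 _ P0 (fun P hP => ?_)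
      (Finset.mem_filter.2 ⟨hP0, rfl⟩)
    rw [Finset.mem_filter] at hP
    obtain ⟨p1, p2, p3⟩ := hf P hP.1
    exact ⟨hP.2, p1, p2, fun j => bound_y cl (sz_ge e G p1 p2) p3 hδ m' hm' hm'L j⟩
  have h5 : (f.card : ℝ) = ∑ w ∈ f.image Prod.fst, ((f.filter (fun P => P.1 = w)).card : ℝ) := by
    rw [← Nat.cast_sum]
    congr 1
    exact Finset.card_eq_sum_card_fiberwise fun x hx => Finset.mem_image_of_mem _ hx
  have h6 : ∏ i, (C2 i * ((T ^ (1 / δ)) ^ d) ^ η * (T ^ (1 / δ)) ^ η) =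
      (∏ j, C2 j) * T ^ ((s : ℝ) * ((d + 1) * (η / δ))) := by
    have e1 : ((T ^ (1 / δ)) ^ d) ^ η * (T ^ (1 / δ)) ^ η = T ^ ((d + 1) * (η / δ)) := by
      rw [← Real.rpow_natCast, ← Real.rpow_mul hT0.le, ← Real.rpow_mul hT0.le,
        ← Real.rpow_mul hT0.le, ← Real.rpow_add hT0]
      congr 1
      field_simp
    simp only [mul_assoc, e1]
    rw [Finset.prod_mul_distrib, Finset.prod_const, Finset.card_univ, Fintype.card_fin,
      ← Real.rpow_natCast, ← Real.rpow_mul hT0.le]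
    congr 2
    ring
  have h7 : (T ^ t) ^ (1 + η) = T ^ (t * (1 + η)) := (Real.rpow_mul hT0.le _ _).symm
  have hprod : 0 < ∏ j, C2 j := Finset.prod_pos fun j _ => hC2 j
  calc (f.card : ℝ) = ∑ w ∈ f.image Prod.fst, ((f.filter (fun P => P.1 = w)).card : ℝ) := h5
    _ ≤ ∑ _w ∈ f.image Prod.fst, ∏ i, (C2 i * ((T ^ (1 / δ)) ^ d) ^ η * (T ^ (1 / δ)) ^ η) :=
        Finset.sum_le_sum h4
    _ = (f.image Prod.fst).card * ∏ i, (C2 i * ((T ^ (1 / δ)) ^ d) ^ η * (T ^ (1 / δ)) ^ η) := by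
        rw [Finset.sum_const, nsmul_eq_mul]
    _ ≤ (C1 * T ^ (t * (1 + η))) * ((∏ j, C2 j) * T ^ ((s : ℝ) * ((d + 1) * (η / δ)))) := by
        rw [h6, ← h7]
        exact mul_le_mul_of_nonneg_right h3 (by positivity)
    _ = (C1 * ∏ j, C2 j) * T ^ (t * (1 + η) + (s : ℝ) * ((d + 1) * (η / δ))) := by
        rw [Real.rpow_add hT0]
        ring
    _ ≤ (C1 * ∏ j, C2 j) * T ^ (fuj cl L + ε) := by
        refine mul_le_mul_of_nonneg_left (Real.rpow_le_rpow_of_exponent_le hT ?_) (by positivity)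
        have e1 : t * (1 + η) + (s : ℝ) * ((d + 1) * (η / δ)) =
            t + η * (t + s * (d + 1) / δ) := by ring
        have e2 : η * (t + s * (d + 1) / δ) ≤ ε / 2 := by
          rw [hη', div_mul_eq_mul_div, div_le_iff₀ hden]
          nlinarith
        rw [e1]
        linarith

/-- a set all of whose finite subsets have at most `x` elements -/
lemma finite_of_card_le {α : Type} (S : Set α) (x : ℝ)
    (h : ∀ f : Finset α, (∀ P ∈ f, P ∈ S) → (f.card : ℝ) ≤ x) : S.Finite ∧ (S.ncard : ℝ) ≤ x := by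
  have hfin : S.Finite := by
    by_contra hinf
    obtain ⟨f, hf, hc⟩ := Set.Infinite.exists_subset_card_eq hinf (⌊x⌋₊ + 1)
    have h1 := h f fun P hP => hf hP
    rw [hc] at h1
    have h2 := Nat.lt_floor_add_one x
    push_cast at h1
    linarith
  refine ⟨hfin, ?_⟩
  rw [Set.ncard_eq_toFinset_card S hfin]
  exact h _ fun P hP => hfin.mem_toFinset.1 hP

end points

end Pool.Agent.Q22.NT
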